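import Pool.Agent.V11142.WG.Main
import Pool.Agent.H997R3.Gon.Example

/-!
# Higher divisorial gonality of a graph and of its metric graph

`G : MGraph V E` is a finite loopless multigraph; `dgon G r` is the least degree of a divisor of
rank at least `r` on `G`, and `mdgon G r` the least degree of a divisor of rank at least `r` on
the metric graph obtained from `G` by giving every edge length one.

The metric graph.  Its points are the vertices and, on every edge, the points of the open interval
`I = (0, 1)`.  A divisor (`MDiv V E`) is an integer at every vertex and a finitely supported
integer function on the interior points of every edge.  A continuous piecewise linear function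
with finitely many pieces and integer slopes (`RatFun G`) is given by its real values at the
vertices and, on every edge `e`, by its slope at `src e` and its finitely many changes of slope;
on `e` it is the function `plVal`, which is `t ↦ a + m t + ∑ k_s max (t - s) 0`, and it has to
take the right value at `tgt e`.  `RatFun.div` is the sum of the outgoing slopes at every point.

The example is the wedge of a graph `G₀` with a complete graph on `M + 1` vertices, for `M` large.
Here `G₀` is a connected graph whose gonality exceeds that of its first subdivision.  The first
gonality of the wedge and of its metric graph is `M`, because of the complete graph, while every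
divisor of rank two on the wedge splits into a divisor of rank one on `G₀` and one on the complete
graph, so that `dgon 2` is at least `gon G₀ + M`; on the metric graph the midpoints of the edges
of `G₀` can be used, and `gon (G₀.subdiv 2) + M` chips suffice.
-/

set_option autoImplicit false

namespace Pool.Agent.Results.MP_7c139f_co.HigherGonality

open Pool.Agent.H997R3.Gon Pool.Agent.V11142.WG

/-- There is a connected graph `G` with `dgon (Γ(G)) = dgon G` and
`dgon_r (Γ(G)) < dgon_r G` for some `r ≥ 2`. -/
theorem result : ∃ (V E : Type) (_ : Fintype V) (_ : DecidableEq V) (_ : Fintype E)
    (G : MGraph V E), G.Connected ∧ mdgon G 1 = dgon G 1 ∧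
      ∃ r : ℕ, 2 ≤ r ∧ mdgon G r < dgon G r := by
  classical
  obtain ⟨x, M, h1, h2, h3⟩ := main Example.G Example.G_connected (by
    have h1 := Example.G_upper 2 le_rfl
    have h2 := Example.G_lower
    convert lt_of_le_of_lt h1 h2)
  exact ⟨_, _, _, _, _, wedge Example.G x M, h1, h2, 2, le_rfl, h3⟩

end Pool.Agent.Results.MP_7c139f_co.HigherGonality
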